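import Pool.Agent.Lib.MP_5ed4ef_gt.IsGood
import Pool.Agent.Lib.MP_5ed4ef_gt.Pos
import Pool.Agent.Lib.MP_5ed4ef_gt.Neg

/-!
# A locally compact space with a denumerable remainder of which `ℕ(∞)` is not a remainder

The statement `if X is a locally compact Hausdorff space with a denumerable remainder, then ℕ(∞) is
a remainder of X` is not provable in ZF: there is a (two-valued) structure `(M, ∈)` satisfying all
axioms of ZF (first-order schemas included) in which it fails.

`M` is obtained from a symmetric Boolean-valued model (`Pool.Agent.Lib.SymModel`): Cohen-generic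
points `e k` (`k ∈ ω`) of the Cantor set are added, those with even index in a closed nowhere dense
set `Z` and the others outside `Z`, and only the Boolean algebra `B = {D u : u clopen}` of the sets
`D u = {k : e k ∈ u}` is kept, without its indexing by the clopen sets `u`. In `M` the space `ω` with
base `B` is compact Hausdorff, the set `X` of the odd numbers is open and dense in it, and the
remainder, the set of the even numbers, is denumerable.
-/

set_option autoImplicit false
set_option synthInstance.maxSize 100000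
set_option synthInstance.maxHeartbeats 400000

namespace Pool.Agent.Results.MP_5ed4ef_gt.DenumerableRemainder

open Pool.Agent.MP_5db68c_lc Pool.Agent.Lib.MP_5ed4ef_gt

/-- The space `ℕ(∞)` exists. -/
theorem exists_nInf {M : Type} [Membership M M] [hM : IsZF M] : ∃ Y s : M, IsNInf Y s := by
  obtain ⟨w, hw⟩ := exists_omega (M := M)
  obtain ⟨Y, hY⟩ := exists_insert w w
  obtain ⟨P, hP⟩ := hM.zf.powerset Y
  obtain ⟨s, hs⟩ := exists_el_subset (a := P) (fun U : El P => w ∈ U.1 →
    ∃ F : M, (∀ x : M, x ∈ F ↔ x ∈ w ∧ x ∉ U.1) ∧ FiniteIn F) inferInstance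
  refine ⟨Y, s, w, hw, hY, fun U => ?_⟩
  rw [hs]
  constructor
  · rintro ⟨h1, h2⟩
    exact ⟨(hP U).1 h1, h2⟩
  · rintro ⟨h1, h2⟩
    exact ⟨(hP U).2 h1, h2⟩

/-- There is a model `(M, ∈)` of ZF which contains a locally compact Hausdorff space `(X, t)` that
has a denumerable remainder while `ℕ(∞)` is not a remainder of `(X, t)`. (The space `ℕ(∞)` exists
in `M`.) -/
theorem result : ∃ (M : Type) (_ : Membership M M), ModelZF M ∧
    ∃ X t : M, IsTopology X t ∧ IsHausdorffIn X t ∧ IsLocallyCompactIn X t ∧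
      HasDenumerableRemainder X t ∧
      (∃ Y s : M, IsNInf Y s) ∧ ∀ Y s : M, IsNInf Y s → ¬ IsRemainder Y s X t := by
  obtain ⟨M, hmem, hM, W, X, R, B, h⟩ := exists_good
  refine ⟨M, hmem, hM.zf, X, ?_⟩
  obtain ⟨P, hP⟩ := hM.zf.powerset X
  obtain ⟨t, ht0⟩ := exists_el_subset (a := P) (fun U : El P => ∀ k : M, k ∈ U.1 →
    ∃ D : M, D ∈ B ∧ k ∈ D ∧ ∀ l : M, l ∈ X → l ∈ D → l ∈ U.1) inferInstance
  have ht : ∀ U : M, U ∈ t ↔ (∀ k : M, k ∈ U → k ∈ X) ∧
      ∀ k : M, k ∈ U → ∃ D : M, D ∈ B ∧ k ∈ D ∧ ∀ l : M, l ∈ X → l ∈ D → l ∈ U := by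
    intro U
    rw [ht0]
    constructor
    · rintro ⟨h1, h2⟩
      exact ⟨(hP U).1 h1, h2⟩
    · rintro ⟨h1, h2⟩
      exact ⟨(hP U).2 h1, h2⟩
  obtain ⟨h1, h2, h3, h4⟩ := pos_of_good h ht
  exact ⟨t, h1, h2, h3, h4, exists_nInf, neg_of_good h ht⟩

end Pool.Agent.Results.MP_5ed4ef_gt.DenumerableRemainder
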